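import Mathlib

/-!
Witness sets blocking all Gabriel edges (MP_edf47b_co).

For every `n ≥ 1` the maximum, over all `n`-point sets `P` in the Euclidean plane, of the
smallest size of a blocking set of witnesses for the Gabriel graph of `P` is exactly `n - 1`.
-/

namespace Pool.Agent.Results.MP_edf47b_co.ExactValue

open Metric

/-- The Euclidean plane. -/
abbrev Plane := EuclideanSpace ℝ (Fin 2)

/-- The open disk whose diameter is the segment `pq`. -/
def disk (p q : Plane) : Set Plane := Metric.ball (midpoint ℝ p q) (dist p q / 2)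

/-- `W` is a blocking set of witnesses for the Gabriel graph of `P`. -/
def Blocks (P W : Finset Plane) : Prop :=
  ∀ p ∈ P, ∀ q ∈ P, p ≠ q → ∃ x ∈ W, x ∈ disk p q

/-- The smallest size of a blocking set of witnesses for `P`. -/
noncomputable def minBlock (P : Finset Plane) : ℕ :=
  sInf {k | ∃ W : Finset Plane, W.card = k ∧ Blocks P W}

/-- An explicit linear functional. -/
def f (t : ℝ) (p : Plane) : ℝ := p 0 + t * p 1

lemma exists_generic (P : Finset Plane) :
    ∃ t : ℝ, ∀ p ∈ P, ∀ q ∈ P, p ≠ q → f t p ≠ f t q := by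
  classical
  obtain ⟨t, ht⟩ := Infinite.exists_notMem_finset
    ((P ×ˢ P).image (fun z : Plane × Plane => -(z.1 0 - z.2 0) / (z.1 1 - z.2 1)))
  refine ⟨t, fun p hp q hq hpq hf => ?_⟩
  have hlin : (p 0 - q 0) + t * (p 1 - q 1) = 0 := by
    simp only [f] at hf
    linarith
  by_cases h1 : p 1 - q 1 = 0
  · apply hpq
    have h0 : p 0 - q 0 = 0 := by
      rw [h1] at hlin
      linarith
    ext i
    fin_cases i
    · simpa using (by linarith : p 0 = q 0)
    · simpa using (by linarith : p 1 = q 1)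
  · apply ht
    rw [Finset.mem_image]
    refine ⟨(p, q), Finset.mk_mem_product hp hq, ?_⟩
    simp only
    rw [div_eq_iff h1]
    linarith

lemma mem_disk_of (t ε : ℝ) (hε : 0 < ε) (p q : Plane)
    (h : ε * (1 + t ^ 2) < f t q - f t p) :
    p + ε • (!₂[1, t] : Plane) ∈ disk p q := by
  rw [disk, Metric.mem_ball, EuclideanSpace.dist_eq, EuclideanSpace.dist_eq]
  rw [lt_div_iff₀ (by norm_num : (0 : ℝ) < 2)]
  have h2 : (2 : ℝ) = Real.sqrt 4 := by
    rw [show (4 : ℝ) = 2 ^ 2 by norm_num, Real.sqrt_sq (by norm_num)]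
  rw [h2, ← Real.sqrt_mul (by positivity)]
  apply Real.sqrt_lt_sqrt (by positivity)
  simp only [Fin.sum_univ_two, Real.dist_eq, sq_abs, midpoint_eq_smul_add, PiLp.add_apply,
    PiLp.smul_apply, smul_eq_mul]
  simp only [f] at h
  simp
  nlinarith [mul_lt_mul_of_pos_left h hε]

lemma exists_blocking (P : Finset Plane) (hP : P.Nonempty) :
    ∃ W : Finset Plane, W.card ≤ P.card - 1 ∧ Blocks P W := by
  classical
  obtain ⟨t, ht⟩ := exists_generic P
  obtain ⟨m, hm, hmax⟩ := P.exists_max_image (f t) hP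
  have hev : ∀ᶠ ε : ℝ in nhdsWithin 0 (Set.Ioi 0), ∀ p ∈ P, ∀ q ∈ P, p ≠ q →
      ε * (1 + t ^ 2) < |f t q - f t p| := by
    rw [Filter.eventually_all_finset]
    intro p hp
    rw [Filter.eventually_all_finset]
    intro q hq
    by_cases hpq : p = q
    · exact Filter.Eventually.of_forall (fun _ h => absurd hpq h)
    · have hpos : 0 < |f t q - f t p| := abs_pos.mpr (sub_ne_zero.mpr (fun h => ht p hp q hq hpq h.symm))
      have hlim : Filter.Tendsto (fun ε : ℝ => ε * (1 + t ^ 2)) (nhdsWithin 0 (Set.Ioi 0))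
          (nhds 0) := by
        have : Filter.Tendsto (fun ε : ℝ => ε * (1 + t ^ 2)) (nhds 0) (nhds (0 * (1 + t ^ 2))) :=
          (continuous_id.mul continuous_const).tendsto 0
        rw [zero_mul] at this
        exact this.mono_left nhdsWithin_le_nhds
      exact (hlim.eventually (gt_mem_nhds hpos)).mono (fun ε h _ => h)
  obtain ⟨ε, hε, hε0⟩ := (hev.and self_mem_nhdsWithin).exists
  have hε0' : 0 < ε := hε0
  refine ⟨(P.erase m).image (fun p => p + ε • (!₂[1, t] : Plane)), ?_, ?_⟩
  · refine le_trans Finset.card_image_le ?_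
    rw [Finset.card_erase_of_mem hm]
  · have key : ∀ p ∈ P, ∀ q ∈ P, f t p < f t q →
        ∃ x ∈ (P.erase m).image (fun p => p + ε • (!₂[1, t] : Plane)), x ∈ disk p q := by
      intro p hp q hq hlt
      have hpm : p ≠ m := by
        rintro rfl
        exact absurd (hmax q hq) (not_le.mpr hlt)
      refine ⟨p + ε • (!₂[1, t] : Plane), Finset.mem_image.mpr ⟨p, Finset.mem_erase.mpr ⟨hpm, hp⟩, rfl⟩, ?_⟩
      apply mem_disk_of t ε hε0' p q
      have := hε p hp q hq (by rintro rfl; exact lt_irrefl _ hlt)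
      rwa [abs_of_pos (sub_pos.mpr hlt)] at this
    intro p hp q hq hpq
    rcases lt_or_gt_of_ne (ht p hp q hq hpq) with h | h
    · exact key p hp q hq h
    · obtain ⟨x, hx, hxd⟩ := key q hq p hp h
      refine ⟨x, hx, ?_⟩
      rw [disk] at hxd ⊢
      rwa [midpoint_comm, dist_comm]

/-- The point `(i, 0)`. -/
noncomputable def pt (i : ℕ) : Plane := !₂[(i : ℝ), 0]

lemma pt_injective : Function.Injective pt := by
  intro i j h
  have := congrArg (fun p : Plane => p 0) h
  simpa [pt] using this

lemma line_lower (n : ℕ) (W : Finset Plane) (h : Blocks ((Finset.range n).image pt) W) :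
    n - 1 ≤ W.card := by
  classical
  have hx : ∀ i : Fin (n - 1), ∃ x ∈ W, x ∈ disk (pt i) (pt (i + 1)) := by
    intro i
    apply h
    · exact Finset.mem_image_of_mem _ (Finset.mem_range.mpr (by omega))
    · exact Finset.mem_image_of_mem _ (Finset.mem_range.mpr (by omega))
    · intro he
      have := pt_injective he
      omega
  choose x hxW hxd using hx
  have hcoord : ∀ i : Fin (n - 1), ((i : ℕ) : ℝ) < x i 0 ∧ x i 0 < ((i : ℕ) : ℝ) + 1 := by
    intro i
    have h1 := hxd i
    rw [disk, Metric.mem_ball] at h1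
    have h2 : dist (pt i) (pt (i + 1)) = 1 := by
      rw [EuclideanSpace.dist_eq]
      simp [pt, Real.dist_eq]
    have h3 : |x i 0 - (midpoint ℝ (pt i) (pt (i + 1))) 0| ≤
        dist (x i) (midpoint ℝ (pt i) (pt (i + 1))) := by
      rw [EuclideanSpace.dist_eq, Fin.sum_univ_two, Real.dist_eq, sq_abs]
      apply Real.abs_le_sqrt
      nlinarith [sq_nonneg (dist (x i 1) (midpoint ℝ (pt i) (pt (i + 1)) 1))]
    have h4 : (midpoint ℝ (pt i) (pt (i + 1))) 0 = ((i : ℕ) : ℝ) + 1 / 2 := by
      simp only [midpoint_eq_smul_add, PiLp.add_apply, PiLp.smul_apply, smul_eq_mul, pt]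
      simp
      ring
    rw [h2] at h1
    rw [h4] at h3
    have h5 := abs_lt.mp (lt_of_le_of_lt h3 h1)
    constructor <;> linarith [h5.1, h5.2]
  have hinj : Function.Injective x := by
    intro i j hij
    have hi := hcoord i
    have hj := hcoord j
    rw [hij] at hi
    have h1 : ((i : ℕ) : ℝ) < ((j : ℕ) : ℝ) + 1 := by linarith [hi.1, hj.2]
    have h2 : ((j : ℕ) : ℝ) < ((i : ℕ) : ℝ) + 1 := by linarith [hj.1, hi.2]
    have h1' : (i : ℕ) < (j : ℕ) + 1 := by exact_mod_cast h1
    have h2' : (j : ℕ) < (i : ℕ) + 1 := by exact_mod_cast h2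
    ext
    omega
  have hcard : (Finset.univ.image x).card = n - 1 := by
    rw [Finset.card_image_of_injective _ hinj]
    simp
  rw [← hcard]
  apply Finset.card_le_card
  intro y hy
  rw [Finset.mem_image] at hy
  obtain ⟨i, _, rfl⟩ := hy
  exact hxW i

/-- For every `n ≥ 1`: every `n`-point set `P` in the plane has a blocking set of witnesses (so
the minimum is over a nonempty set), the minimum is at most `n - 1` for each `P`, and `n - 1` is
attained; that is, `w(n) = n - 1` exactly. -/
theorem result (n : ℕ) (hn : 1 ≤ n) :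
    (∀ P : Finset Plane, P.card = n →
      {k | ∃ W : Finset Plane, W.card = k ∧ Blocks P W}.Nonempty) ∧
    IsGreatest {k | ∃ P : Finset Plane, P.card = n ∧ minBlock P = k} (n - 1) := by
  classical
  have hne : ∀ P : Finset Plane, P.card = n →
      {k | ∃ W : Finset Plane, W.card = k ∧ Blocks P W}.Nonempty := by
    intro P hP
    obtain ⟨W, _, hW⟩ := exists_blocking P (Finset.card_pos.mp (by omega))
    exact ⟨W.card, W, rfl, hW⟩
  have hup : ∀ P : Finset Plane, P.card = n → minBlock P ≤ n - 1 := by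
    intro P hP
    obtain ⟨W, hWc, hW⟩ := exists_blocking P (Finset.card_pos.mp (by omega))
    rw [hP] at hWc
    exact le_trans (Nat.sInf_le ⟨W, rfl, hW⟩) hWc
  refine ⟨hne, ?_, ?_⟩
  · have hc : ((Finset.range n).image pt).card = n := by
      rw [Finset.card_image_of_injective _ pt_injective, Finset.card_range]
    refine ⟨(Finset.range n).image pt, hc, le_antisymm (hup _ hc) ?_⟩
    obtain ⟨W, hWc, hW⟩ := Nat.sInf_mem (hne _ hc)
    have := line_lower n W hW
    rw [minBlock, ← hWc]
    exact this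
  · rintro k ⟨P, hP, rfl⟩
    exact hup P hP

end Pool.Agent.Results.MP_edf47b_co.ExactValue
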